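import Mathlib

set_option autoImplicit false

namespace Pool.Agent.Results.MP_2248a2_co.Counter

open Finset SimpleGraph

/-- The largest value of (number of colours on `S`) minus (chromatic number of `G[S]`). -/
noncomputable def disc {V : Type} [Fintype V] (G : SimpleGraph V) (c : V → ℕ) : ℕ :=
  (univ : Finset (Finset V)).sup
    (fun S => (S.image c).card - (G.induce (S : Set V)).chromaticNumber.toNat)

/-- The chromatic discrepancy: the minimum of `disc` over all proper colourings. -/
noncomputable def phi {V : Type} [Fintype V] (G : SimpleGraph V) : ℕ :=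
  sInf {d : ℕ | ∃ c : V → ℕ, (∀ u v, G.Adj u v → c u ≠ c v) ∧ disc G c = d}

def tab : List ℕ := [16894064508, 33788129016, 33216519665, 32073300963, 29786863559, 25213988751, 16068239135,
  32136478270, 29913218173, 25466697979, 16573657591, 33147315182, 31934891997, 29510045627,
  24660352887, 14960967407, 29921934814, 25484131261, 16608524155, 33217048310, 32074358253,
  29788978139, 25218217911, 16076697455, 32153394910, 29947051453, 25534364539, 16708990711,
  33417981422, 32476224477, 30592710587, 26825682807, 19291627247, 4223516127, 8447032254]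

def A (v : ℕ) : ℕ := tab.getD v 0

def G : SimpleGraph (Fin 35) where
  Adj u v := (A u).testBit v = true
  symm := ⟨by decide +kernel⟩
  loopless := ⟨by decide +kernel⟩

def frc (x : ℕ) (f : ℕ → Bool) : Bool := match x with
  | 0 => f 0
  | m + 1 => f (m + 1)

lemma frc_eq (x : ℕ) (f : ℕ → Bool) : frc x f = f x := by cases x <;> rfl

def go : List ℕ → ℕ → ℕ → Bool
  | _, 0, _ => false
  | [], _ + 1, _ => true
  | v :: r, k + 1, c => if c.testBit v then
      (Nat.blt (r.countP c.testBit) k || (frc (c &&& A v) (go r k) && go r (k + 1) c))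
    else go r (k + 1) c

lemma go_ok : ∀ (l : List ℕ) (k c : ℕ), go l k c = true → ∀ S : Finset ℕ,
    (∀ x ∈ S, x ∈ l ∧ c.testBit x = true) →
    (∀ x ∈ S, ∀ y ∈ S, x ≠ y → (A x).testBit y = true) → S.card = k → False
  | [], 0, _, h, _, _, _, _ => by simp [go] at h
  | _ :: _, 0, _, h, _, _, _, _ => by simp [go] at h
  | [], k + 1, _, _, S, h1, _, h3 => by
    obtain ⟨x, hx⟩ := card_pos.1 (show 0 < S.card by omega)
    simpa using (h1 x hx).1
  | v :: r, k + 1, c, h, S, h1, h2, h3 => by
    have skip : v ∉ S → go r (k + 1) c = true → False := fun hv h' =>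
      go_ok r (k + 1) c h' S (fun x hx => ⟨(List.mem_cons.1 (h1 x hx).1).resolve_left
        (fun e => hv (e ▸ hx)), (h1 x hx).2⟩) h2 h3
    have er : ∀ x ∈ S.erase v, x ∈ r ∧ c.testBit x = true := fun x hx =>
      ⟨(List.mem_cons.1 (h1 x (mem_of_mem_erase hx)).1).resolve_left (ne_of_mem_erase hx),
        (h1 x (mem_of_mem_erase hx)).2⟩
    unfold go at h
    split_ifs at h with hc
    · rw [Bool.or_eq_true, Bool.and_eq_true, frc_eq, Nat.blt_eq] at h
      rcases h with h | h
      · have e1 : (S.erase v).card ≤ (r.filter c.testBit).toFinset.card :=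
          card_le_card (fun x hx => by simpa using er x hx)
        have e2 := List.toFinset_card_le (r.filter c.testBit)
        have e3 := pred_card_le_card_erase (s := S) (a := v)
        rw [List.countP_eq_length_filter] at h
        omega
      · by_cases hv : v ∈ S
        · refine go_ok r k _ h.1 (S.erase v) (fun x hx => ⟨(er x hx).1, ?_⟩)
            (fun x hx y hy => h2 x (mem_of_mem_erase hx) y (mem_of_mem_erase hy))
            (by rw [card_erase_of_mem hv]; omega)
          rw [Nat.testBit_and, (er x hx).2,
            h2 v hv x (mem_of_mem_erase hx) (ne_of_mem_erase hx).symm]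
          rfl
        · exact skip hv h.2
    · exact skip (fun hv => hc (h1 v hv).2) h

lemma run : go (List.range 35) 9 (2 ^ 35 - 1) = true := by decide +kernel

lemma omega_le : G.cliqueNum ≤ 8 := by
  obtain ⟨s, hs⟩ := G.exists_isNClique_cliqueNum
  by_contra hc
  obtain ⟨t, ht, hc'⟩ := exists_subset_card_eq (s := s) (n := 9) (by rw [hs.2]; omega)
  refine go_ok _ _ _ run (t.map Fin.valEmbedding) (fun x hx => ?_) (fun x hx y hy hxy => ?_)
    (by rw [card_map, hc'])
  · obtain ⟨a, -, rfl⟩ := mem_map.1 hx
    rw [Nat.testBit_two_pow_sub_one]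
    simp
  · obtain ⟨a, ha, rfl⟩ := mem_map.1 hx
    obtain ⟨b, hb, rfl⟩ := mem_map.1 hy
    exact hs.1 (ht ha) (ht hb) (fun e => hxy (by rw [e]))

lemma tri : ∀ a b : Fin 35, a = b ∨ (A a).testBit b = true ∨ ∀ c : Fin 35, a = c ∨ b = c ∨
    (A a).testBit c = true ∨ (A b).testBit c = true := by decide +kernel

lemma half (S : Finset (Fin 35)) (k : ℕ) (h : (G.induce (S : Set (Fin 35))).Colorable k) :
    S.card ≤ 2 * k := by
  obtain ⟨C⟩ := h
  have := card_le_mul_card_image (f := C) (univ : Finset (S : Set (Fin 35))) 2 (fun x _ => by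
    by_contra hc
    obtain ⟨a, b, c, ha, hb, hc', hab, hac, hbc⟩ := two_lt_card_iff.1 (not_le.1 hc)
    simp only [mem_filter] at ha hb hc'
    have n : ∀ u v : (S : Set (Fin 35)), C u = x → C v = x → ¬ (A u.1).testBit v.1 = true :=
      fun u v hu hv hadj => C.valid (show (G.induce (S : Set (Fin 35))).Adj u v from hadj)
        (hu.trans hv.symm)
    rcases tri a b with h | h | h
    · exact hab (Subtype.ext h)
    · exact n a b ha.2 hb.2 h
    · rcases h c with h | h | h | h
      · exact hac (Subtype.ext h)
      · exact hbc (Subtype.ext h)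
      · exact n a c ha.2 hc'.2 h
      · exact n b c hb.2 hc'.2 h)
  have h2 := card_le_univ (image C (univ : Finset (S : Set (Fin 35))))
  simp only [card_univ, Fintype.card_fin, coe_sort_coe, Fintype.card_coe] at this h2
  omega

lemma phi_le : phi G ≤ 9 := by
  have hp : ∀ u v : Fin 35, (A u).testBit v = true → u.val / 2 ≠ v.val / 2 := by decide +kernel
  refine le_trans (Nat.sInf_le ⟨fun v => v.val / 2, hp, rfl⟩) (Finset.sup_le (fun S _ => ?_))
  have h1 := half S _ (colorable_chromaticNumber_of_fintype _)
  have h2 : (S.image (fun v : Fin 35 => v.val / 2)).card ≤ S.card := card_image_le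
  have h3 : (S.image (fun v : Fin 35 => v.val / 2)).card ≤ (range 18).card :=
    card_le_card (fun x hx => by
      obtain ⟨v, -, rfl⟩ := mem_image.1 hx
      have := v.2
      simp only [mem_range]; omega)
  rw [card_range] at h3
  omega

lemma chi_ge : 18 ≤ G.chromaticNumber.toNat := by
  have h := (colorable_chromaticNumber_of_fintype G).of_hom
    (Embedding.induce (G := G) ((univ : Finset (Fin 35)) : Set (Fin 35))).toHom
  have := half univ _ h
  simp only [card_univ, Fintype.card_fin] at this
  omega

theorem result : ∃ H : SimpleGraph (Fin 35),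
    phi H + H.cliqueNum < H.chromaticNumber.toNat := by
  refine ⟨G, ?_⟩
  have := phi_le
  have := chi_ge
  have := omega_le
  omega

end Pool.Agent.Results.MP_2248a2_co.Counter
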